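import Pool.Agent.Y303.EJ.Stm
import Pool.Agent.Y5.O2

/-!
# Lower bound of the mode `n + 2` by the clock `n`
-/

open Set Filter Topology MeasureTheory Metric

set_option autoImplicit false

namespace Pool.Agent.Y574.EJ

open Pool.Agent.Y5 (Pr Pr_cont Pr_deriv Pr_mono Pr_zero mono_of)
open Pool.Agent.Y6.N (src ph)
open Pool.Agent.Y303.EJ

section basics

variable {η : ℝ} {lm L C ℓ : ℕ → ℝ} {B : ℕ → ℕ → ℝ} {T : ℝ} {x R V : ℕ → ℝ → ℝ}

lemma R_succ_le (H : Ch η lm L C ℓ B T x R V) (n : ℕ) {t : ℝ} (ht : t ∈ Ico 0 T) :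
    R (n + 1) t ≤ R n t :=
  (pow_le_pow_iff_left₀ (H.R0 (n + 1) t ht) (H.R0 n t ht) two_ne_zero).1
    (by have := H.Rsq n t ht; nlinarith [sq_nonneg (x n t)])

lemma R_le_one (H : Ch η lm L C ℓ B T x R V) (n : ℕ) {t : ℝ} (ht : t ∈ Ico 0 T) :
    R n t ≤ 1 := by
  induction n with
  | zero => exact H.R1 t ht
  | succ n ih => exact (R_succ_le H n ht).trans ih

lemma x_le (H : Ch η lm L C ℓ B T x R V) (n : ℕ) {t : ℝ} (ht : t ∈ Ico 0 T) :
    |x n t| ≤ R n t :=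
  abs_le_of_sq_le_sq (by have := H.Rsq n t ht; nlinarith [sq_nonneg (R (n + 1) t)])
    (H.R0 n t ht)

lemma L_pos (H : Ch η lm L C ℓ B T x R V) (n : ℕ) : 0 < L n :=
  lt_of_lt_of_le one_pos (H.nm.L1 n)

lemma cLR (H : Ch η lm L C ℓ B T x R V) (i j : ℕ) :
    ContinuousOn (fun s => L i * R j s) (Ico 0 T) :=
  continuousOn_const.mul (H.cR j)

lemma Th_mono (H : Ch η lm L C ℓ B T x R V) (n : ℕ) {s t : ℝ} (hs : s ∈ Ico 0 T)
    (ht : t ∈ Ico 0 T) (hst : s ≤ t) : Th L R n s ≤ Th L R n t :=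
  Pr_mono (cLR H n (n + 1)) hs ht hst fun r hr =>
    mul_nonneg (L_pos H n).le (H.R0 _ r ⟨hs.1.trans hr.1.le, hr.2.trans ht.2⟩)

lemma Th_nonneg (H : Ch η lm L C ℓ B T x R V) (n : ℕ) {t : ℝ} (ht : t ∈ Ico 0 T) :
    0 ≤ Th L R n t := by
  have h0 : (0 : ℝ) ∈ Ico 0 T := ⟨le_rfl, H.hT⟩
  have := Th_mono H n h0 ht ht.1
  rwa [Th, Pr_zero] at this

lemma His_mono (H : Ch η lm L C ℓ B T x R V) {n : ℕ} {s t : ℝ} (hs : s ∈ Ico 0 T)
    (ht : t ∈ Ico 0 T) (hst : s ≤ t) (h : His η lm L R n t) : His η lm L R n s where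
  time := (mul_le_mul_of_nonneg_left hst (L_pos H 0).le).trans h.time
  old := fun i hi => (Th_mono H i hs ht hst).trans (h.old i hi)
  next := (Th_mono H (n + 1) hs ht hst).trans h.next

lemma Ex_mono (H : Ch η lm L C ℓ B T x R V) (m : ℕ) {s t : ℝ} (hs : s ∈ Ico 0 T)
    (ht : t ∈ Ico 0 T) (hst : s ≤ t) : Ex L R m s ≤ Ex L R m t := by
  unfold Ex
  refine Finset.sum_le_sum fun i _ => Pr_mono (cLR H i i) hs ht hst fun r hr =>
    mul_nonneg (L_pos H i).le (H.R0 _ r ⟨hs.1.trans hr.1.le, hr.2.trans ht.2⟩)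

lemma Ex_nonneg (H : Ch η lm L C ℓ B T x R V) (m : ℕ) {t : ℝ} (ht : t ∈ Ico 0 T) :
    0 ≤ Ex L R m t := by
  have h0 : (0 : ℝ) ∈ Ico 0 T := ⟨le_rfl, H.hT⟩
  have h1 := Ex_mono H m h0 ht ht.1
  have h2 : Ex L R m 0 = 0 := by simp [Ex, Pr_zero]
  rwa [h2] at h1

lemma Ex_le (H : Ch η lm L C ℓ B T x R V) {n : ℕ} {t : ℝ} (ht : t ∈ Ico 0 T)
    (h : His η lm L R n t) : Ex L R (n + 1) t ≤ 3 * ∑ i ∈ Finset.range (n + 1), lm i := by
  unfold Ex
  rw [Finset.mul_sum]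
  refine Finset.sum_le_sum fun i hi => ?_
  have hin : i < n + 1 := Finset.mem_range.1 hi
  have h0 : (0 : ℝ) ∈ Ico 0 T := ⟨le_rfl, H.hT⟩
  cases i with
  | zero =>
    have h1 := Pool.Agent.Y5.le_incr (f := Pr (fun s => L 0 * R 0 s))
      (f' := fun s => L 0 * R 0 s) (g := fun _ => L 0) continuousOn_const h0 ht ht.1
      ((Pr_cont (cLR H 0 0)).mono fun s hs => ⟨hs.1, hs.2.trans_lt ht.2⟩)
      (fun s hs => Pr_deriv (cLR H 0 0) ⟨hs.1, hs.2.trans ht.2⟩)
      (fun s hs => by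
        have := H.R1 s ⟨hs.1.le, hs.2.trans ht.2⟩
        have := L_pos H 0
        nlinarith)
    have h2 : Pr (fun _ : ℝ => L 0) t = L 0 * t := by
      simp [Pr, mul_comm]
    rw [Pr_zero, Pr_zero, h2, sub_zero, sub_zero] at h1
    exact h1.trans h.time
  | succ j =>
    have h1 : Pr (fun s => L (j + 1) * R (j + 1) s) t = lm (j + 1) * Th L R j t := by
      unfold Th Pr
      rw [← intervalIntegral.integral_const_mul]
      congr 1
      funext s
      rw [← H.sq.lm_succ j]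
      ring
    rw [h1]
    have h2 := h.old j (by omega)
    have h3 := H.nm.lm1 (j + 1)
    have h4 : (0 : ℝ) < 10 ^ 30 := by norm_num
    nlinarith

lemma Ex_deriv (H : Ch η lm L C ℓ B T x R V) (m : ℕ) {t : ℝ} (ht : t ∈ Ioo 0 T) :
    HasDerivAt (Ex L R m) (∑ i ∈ Finset.range m, L i * R i t) t := by
  have h1 := HasDerivAt.fun_sum (u := Finset.range m) (A := fun i => Pr (fun s => L i * R i s))
    (A' := fun i => L i * R i t) (x := t) fun i _ => Pr_deriv (cLR H i i) ht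
  exact h1

lemma Ex_cont (H : Ch η lm L C ℓ B T x R V) (m : ℕ) : ContinuousOn (Ex L R m) (Ico 0 T) := by
  unfold Ex
  exact continuousOn_finsetSum _ fun i _ => Pr_cont (cLR H i i)

end basics

section rate

variable {η : ℝ} {lm L C ℓ : ℕ → ℝ} {B : ℕ → ℕ → ℝ} {T : ℝ} {x R V : ℕ → ℝ → ℝ}

/-- the rate of growth of the mode `n + 2` -/
noncomputable def rt (L ℓ lm : ℕ → ℝ) (x : ℕ → ℝ → ℝ) (n : ℕ) (s : ℝ) : ℝ :=
  Sg L x (n + 2) s - (ℓ (n + 2) + e0 lm)

lemma rt_cont (H : Ch η lm L C ℓ B T x R V) (n : ℕ) :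
    ContinuousOn (rt L ℓ lm x n) (Ico 0 T) := by
  unfold rt Sg
  refine ContinuousOn.sub ?_ continuousOn_const
  exact continuousOn_finsetSum _ fun i _ => continuousOn_const.mul (H.cx i)

lemma e0_pos (lm : ℕ → ℝ) : 0 < e0 lm := mul_pos two_pos (Real.exp_pos _)

/-- the strain of the lower modes -/
lemma Sg_abs (H : Ch η lm L C ℓ B T x R V) (m : ℕ) {s : ℝ} (hs : s ∈ Ico 0 T) :
    |Sg L x m s| ≤ ∑ i ∈ Finset.range m, L i * R i s := by
  unfold Sg
  refine (Finset.abs_sum_le_sum_abs _ _).trans (Finset.sum_le_sum fun i _ => ?_)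
  rw [abs_mul, abs_of_pos (L_pos H i)]
  exact mul_le_mul_of_nonneg_left (x_le H i hs) (L_pos H i).le

lemma LR_eq (H : Ch η lm L C ℓ B T x R V) (n : ℕ) (s : ℝ) :
    L (n + 1) * R (n + 1) s = lm (n + 1) * (L n * R (n + 1) s) := by
  rw [← H.sq.lm_succ n]
  ring

/-- lower bound of the exponent -/
lemma expo_lo (H : Ch η lm L C ℓ B T x R V) (n : ℕ) {t b κ : ℝ} (ht : 0 ≤ t) (htb : t ≤ b)
    (hb : b < T) (hx : ∀ s ∈ Icc t b, (1 - κ) * R (n + 1) s ≤ x (n + 1) s) :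
    (1 - κ) * (lm (n + 1) * (Th L R n b - Th L R n t)) -
      (Ex L R (n + 1) b - Ex L R (n + 1) t) - (ℓ (n + 2) + e0 lm) * (b - t) ≤
      Pr (rt L ℓ lm x n) b - Pr (rt L ℓ lm x n) t := by
  have hsub : ∀ s ∈ Icc t b, s ∈ Ico 0 T := fun s hs => ⟨ht.trans hs.1, hs.2.trans_lt hb⟩
  have h := mono_of (f := fun s => Pr (rt L ℓ lm x n) s - ((1 - κ) * (lm (n + 1) * Th L R n s) -
      Ex L R (n + 1) s - (ℓ (n + 2) + e0 lm) * s))
    (f' := fun s => rt L ℓ lm x n s - ((1 - κ) * (lm (n + 1) * (L n * R (n + 1) s)) -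
      (∑ i ∈ Finset.range (n + 1), L i * R i s) - (ℓ (n + 2) + e0 lm) * 1)) htb
    (by
      refine ((Pr_cont (rt_cont H n)).mono hsub).sub ?_
      refine ((ContinuousOn.mul continuousOn_const (ContinuousOn.mul continuousOn_const
        ((Pr_cont (cLR H n (n + 1))).mono hsub))).sub ((Ex_cont H (n + 1)).mono hsub)).sub ?_
      exact continuousOn_const.mul continuousOn_id)
    (fun s hs => by
      have hs' : s ∈ Ioo 0 T := ⟨ht.trans_lt hs.1, hs.2.trans hb⟩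
      refine (Pr_deriv (rt_cont H n) hs').sub ?_
      refine ((((Pr_deriv (cLR H n (n + 1)) hs').const_mul _).const_mul _).sub
        (Ex_deriv H (n + 1) hs')).sub ?_
      exact (hasDerivAt_id s).const_mul _)
    (fun s hs => by
      have hs' : s ∈ Icc t b := ⟨hs.1.le, hs.2.le⟩
      have h1 := (abs_le.1 (Sg_abs H (n + 1) (hsub s hs'))).1
      have h2 := mul_le_mul_of_nonneg_left (hx s hs') (L_pos H (n + 1)).le
      have h3 := LR_eq H n s
      have h4 : Sg L x (n + 2) s = Sg L x (n + 1) s + L (n + 1) * x (n + 1) s := by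
        unfold Sg
        rw [Finset.sum_range_succ]
      unfold rt
      rw [h4, ← h3]
      nlinarith)
  linarith

/-- upper bound of the exponent -/
lemma expo_hi (H : Ch η lm L C ℓ B T x R V) (n : ℕ) {t b : ℝ} (ht : 0 ≤ t) (htb : t ≤ b)
    (hb : b < T) :
    Pr (rt L ℓ lm x n) b - Pr (rt L ℓ lm x n) t ≤
      lm (n + 1) * (Th L R n b - Th L R n t) + (Ex L R (n + 1) b - Ex L R (n + 1) t) := by
  have hsub : ∀ s ∈ Icc t b, s ∈ Ico 0 T := fun s hs => ⟨ht.trans hs.1, hs.2.trans_lt hb⟩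
  have h := mono_of (f := fun s => (lm (n + 1) * Th L R n s + Ex L R (n + 1) s) -
      Pr (rt L ℓ lm x n) s)
    (f' := fun s => (lm (n + 1) * (L n * R (n + 1) s) +
      (∑ i ∈ Finset.range (n + 1), L i * R i s)) - rt L ℓ lm x n s) htb
    (by
      refine ContinuousOn.sub ?_ ((Pr_cont (rt_cont H n)).mono hsub)
      exact (ContinuousOn.mul continuousOn_const
        ((Pr_cont (cLR H n (n + 1))).mono hsub)).add ((Ex_cont H (n + 1)).mono hsub))
    (fun s hs => by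
      have hs' : s ∈ Ioo 0 T := ⟨ht.trans_lt hs.1, hs.2.trans hb⟩
      refine HasDerivAt.sub ?_ (Pr_deriv (rt_cont H n) hs')
      exact ((Pr_deriv (cLR H n (n + 1)) hs').const_mul _).add (Ex_deriv H (n + 1) hs'))
    (fun s hs => by
      have hs' : s ∈ Icc t b := ⟨hs.1.le, hs.2.le⟩
      have h1 := (abs_le.1 (Sg_abs H (n + 1) (hsub s hs'))).2
      have h2 := mul_le_mul_of_nonneg_left ((le_abs_self _).trans (x_le H (n + 1) (hsub s hs')))
        (L_pos H (n + 1)).le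
      have h3 := LR_eq H n s
      have h4 : Sg L x (n + 2) s = Sg L x (n + 1) s + L (n + 1) * x (n + 1) s := by
        unfold Sg
        rw [Finset.sum_range_succ]
      have h5 := H.sq.ℓ_nonneg (n + 2)
      have h6 := e0_pos lm
      unfold rt
      rw [h4, ← h3]
      linarith)
  linarith

lemma L_exp (H : Ch η lm L C ℓ B T x R V) (n : ℕ) : L n ≤ Real.exp (lm n / 2) := by
  refine (H.nm.QL n n (by omega)).trans ?_
  unfold Q
  rw [Real.exp_le_exp]
  have h1 := H.nm.d1 n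
  have h2 := H.nm.lm1 n
  have h3 : (0 : ℝ) < 10 ^ 30 := by norm_num
  nlinarith

lemma e0_le (H : Ch η lm L C ℓ B T x R V) : e0 lm ≤ 1 / 10 ^ 30 := by
  have h1 := H.nm.e1
  have h2 := H.nm.L1 0
  have h3 := H.nm.lm1 0
  have h4 := e0_pos lm
  have h5 : (0 : ℝ) < 10 ^ 30 := by norm_num
  nlinarith

/-- the differential inequality for the mode `n + 2` -/
lemma der_lo (H : Ch η lm L C ℓ B T x R V) (hF : FAR η lm L T R) (hN : NEG η lm L T x R)
    (n : ℕ) {t : ℝ} (ht : t ∈ Ioo 0 T) (hH : His η lm L R n t)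
    (hx : dl η (n + 1) / 10 ≤ x (n + 1) t) :
    HasDerivAt (x (n + 2)) (deriv (x (n + 2)) t) t ∧
    L (n + 1) * C (n + 1) * (dl η (n + 1) / 10) ^ 2 - 5 * Real.exp (-(lm (n + 2) / 2)) ≤
      deriv (x (n + 2)) t - rt L ℓ lm x n t * x (n + 2) t := by
  obtain ⟨v, hv, hv'⟩ := H.dx (n + 2) t ht
  rw [hv.deriv]
  refine ⟨hv, ?_⟩
  have ht' : t ∈ Ico 0 T := ⟨ht.1.le, ht.2⟩
  have hu0 := Real.exp_pos (-(lm (n + 2) / 2))
  have hR3 := (hF n t ht' hH (n + 2) le_rfl).1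
  have hR0 := H.R0 (n + 3) t ht'
  have hR1 := R_le_one H (n + 3) ht'
  have hg1 := (x_le H (n + 2) ht').trans (R_le_one H (n + 2) ht')
  have hneg := hN n t ht' hH
  have hlm := H.nm.lm1 (n + 2)
  have hlm0 : (0 : ℝ) ≤ lm (n + 2) := le_trans (by norm_num) hlm
  have hLe := L_exp H (n + 2)
  have hL0 := L_pos H (n + 2)
  have hC0 := H.nm.C0 (n + 2)
  have hC1 := H.nm.C1 (n + 2)
  have hsrc : src L C x (n + 2) t = L (n + 1) * C (n + 1) * x (n + 1) t ^ 2 := by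
    simp [src]
  have hsrc2 : L (n + 1) * C (n + 1) * (dl η (n + 1) / 10) ^ 2 ≤
      L (n + 1) * C (n + 1) * x (n + 1) t ^ 2 := by
    have h1 := H.nm.d0 (n + 1)
    have h2 := H.nm.C0 (n + 1)
    have h3 := L_pos H (n + 1)
    gcongr
  have hrt : rt L ℓ lm x n t * x (n + 2) t = Sg L x (n + 2) t * x (n + 2) t -
      ℓ (n + 2) * x (n + 2) t - e0 lm * x (n + 2) t := by
    unfold rt
    ring
  have hu2 : Real.exp (lm (n + 2) / 2) * Real.exp (-(lm (n + 2) / 2)) = 1 := by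
    rw [← Real.exp_add, add_neg_cancel, Real.exp_zero]
  -- the errors
  have t1 : e0 lm * |x (n + 2) t| ≤ e0 lm * x (n + 2) t + Real.exp (-(lm (n + 2) / 2)) := by
    have h1 := e0_pos lm
    have h2 := e0_le H
    have h3 : |x (n + 2) t| ≤ x (n + 2) t + 2 * Real.exp (-(lm (n + 2) / 2)) := by
      rcases le_total 0 (x (n + 2) t) with h | h
      · rw [abs_of_nonneg h]
        linarith
      · rw [abs_of_nonpos h]
        linarith
    have h4 : e0 lm * 2 ≤ 1 := by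
      have : (1 : ℝ) / 10 ^ 30 * 2 ≤ 1 := by norm_num
      linarith
    nlinarith
  have t2 : C (n + 2) * L (n + 2) * |x (n + 2) t| * R (n + 3) t ≤
      Real.exp (-(lm (n + 2) / 2)) := by
    have h1 : C (n + 2) * L (n + 2) ≤ 1 := by
      calc C (n + 2) * L (n + 2) ≤ Real.exp (-(3 / 2 * lm (n + 2))) *
            Real.exp (lm (n + 2) / 2) := by gcongr
        _ = Real.exp (-(3 / 2 * lm (n + 2)) + lm (n + 2) / 2) := by rw [Real.exp_add]
        _ ≤ 1 := Real.exp_le_one_iff.2 (by linarith)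
    have h2 : C (n + 2) * L (n + 2) * |x (n + 2) t| ≤ 1 := by
      have h3 : 0 ≤ C (n + 2) * L (n + 2) := (mul_pos hC0 hL0).le
      calc C (n + 2) * L (n + 2) * |x (n + 2) t| ≤ 1 * 1 := by gcongr
        _ = 1 := one_mul 1
    calc C (n + 2) * L (n + 2) * |x (n + 2) t| * R (n + 3) t ≤ 1 * R (n + 3) t := by gcongr
      _ ≤ Real.exp (-(lm (n + 2) / 2)) := by rwa [one_mul]
  have hRsq : R (n + 3) t ^ 2 ≤ Real.exp (-(lm (n + 2) / 2)) := by nlinarith
  have t3 : Real.exp (-(lm (n + 3) / 2)) * R (n + 3) t ^ 2 ≤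
      Real.exp (-(lm (n + 2) / 2)) := by
    have h1 : Real.exp (-(lm (n + 3) / 2)) ≤ 1 := by
      rw [Real.exp_le_one_iff]
      have := H.nm.lm1 (n + 3)
      have h3 : (0 : ℝ) < 10 ^ 30 := by norm_num
      linarith
    have h2 := Real.exp_pos (-(lm (n + 3) / 2))
    nlinarith [sq_nonneg (R (n + 3) t)]
  have t4 : ph lm (n + 2) ≤ Real.exp (-(lm (n + 2) / 2)) := by
    unfold ph
    rw [Real.exp_le_exp]
    linarith
  have t5 : L (n + 2) * R (n + 3) t ^ 2 ≤ Real.exp (-(lm (n + 2) / 2)) := by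
    calc L (n + 2) * R (n + 3) t ^ 2 ≤ Real.exp (lm (n + 2) / 2) *
          Real.exp (-(lm (n + 2) / 2)) ^ 2 := by gcongr
      _ = (Real.exp (lm (n + 2) / 2) * Real.exp (-(lm (n + 2) / 2))) *
          Real.exp (-(lm (n + 2) / 2)) := by ring
      _ = Real.exp (-(lm (n + 2) / 2)) := by rw [hu2, one_mul]
  have hv1 := (abs_le.1 hv').1
  rw [hsrc] at hv1
  rw [hrt]
  have e1 : R (n + 2 + 1) t = R (n + 3) t := rfl
  have e2 : lm (n + 2 + 1) = lm (n + 3) := rfl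
  rw [e1, e2] at hv1
  linarith

lemma lm_next (H : Ch η lm L C ℓ B T x R V) (n : ℕ) : 10 ^ 8 * lm (n + 1) ≤ lm (n + 2) := by
  refine (H.sq.lm_grow (n + 1)).trans ?_
  have h1 := H.nm.d0 (n + 2)
  have h2 := H.nm.d1 (n + 2)
  have h3 := H.nm.lm1 (n + 2)
  have h4 : (0 : ℝ) < 10 ^ 30 := by norm_num
  have h5 : dl η (n + 2) ^ 4 ≤ 1 := pow_le_one₀ h1.le (by linarith)
  have h6 : (n + 1 + 1) = n + 2 := rfl
  rw [h6]
  nlinarith

lemma tiny_le (H : Ch η lm L C ℓ B T x R V) (n : ℕ) :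
    5 * Real.exp (-(lm (n + 2) / 2)) ≤
      L (n + 1) * C (n + 1) * (dl η (n + 1) / 10) ^ 2 / 2 := by
  have h1 := lm_next H n
  have h2 := H.nm.lm1 (n + 1)
  have h3 : (10 : ℝ) ^ 30 > 1000 := by norm_num
  have h4 := H.nm.L1 (n + 1)
  have h5 := H.sq.C_lo (n + 1)
  have hd0 := H.nm.d0 (n + 1)
  have hd1 := H.nm.d1 (n + 1)
  have h6 := H.sq.lm_big (n + 1)
  have hpi := Real.pi_lt_d2
  have h7 : Real.exp (-(2 * lm (n + 1))) ≤ C (n + 1) := by
    refine le_trans (Real.exp_le_exp.2 ?_) h5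
    nlinarith
  have h8 : Real.exp (-(lm (n + 1))) ≤ dl η (n + 1) ^ 2 := by
    have h9 : dl η (n + 1) ^ 4 ≤ dl η (n + 1) ^ 2 :=
      pow_le_pow_of_le_one hd0.le (by linarith) (by norm_num)
    have h10 : 1 ≤ dl η (n + 1) ^ 2 * lm (n + 1) := by nlinarith
    have h11 : lm (n + 1) ≤ Real.exp (lm (n + 1)) :=
      (by linarith [Real.add_one_le_exp (lm (n + 1))])
    have h12 : 1 ≤ dl η (n + 1) ^ 2 * Real.exp (lm (n + 1)) := by
      have : 0 ≤ dl η (n + 1) ^ 2 := sq_nonneg _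
      nlinarith
    rw [Real.exp_neg, inv_eq_one_div, div_le_iff₀ (Real.exp_pos _)]
    exact h12
  have h9 : Real.exp (-(3 * lm (n + 1))) ≤ L (n + 1) * C (n + 1) * dl η (n + 1) ^ 2 := by
    have e1 : Real.exp (-(3 * lm (n + 1))) = 1 * Real.exp (-(2 * lm (n + 1))) *
        Real.exp (-(lm (n + 1))) := by
      rw [one_mul, ← Real.exp_add]
      congr 1
      ring
    rw [e1]
    have := H.nm.C0 (n + 1)
    gcongr
  have h10 : Real.exp (-(lm (n + 2) / 2)) ≤ Real.exp (-(4 * lm (n + 1))) := by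
    rw [Real.exp_le_exp]
    nlinarith
  have h11 : 1000 * Real.exp (-(4 * lm (n + 1))) ≤ Real.exp (-(3 * lm (n + 1))) := by
    have e1 : Real.exp (-(3 * lm (n + 1))) = Real.exp (lm (n + 1)) *
        Real.exp (-(4 * lm (n + 1))) := by
      rw [← Real.exp_add]
      congr 1
      ring
    rw [e1]
    have h12 : 1000 ≤ Real.exp (lm (n + 1)) := by linarith [Real.add_one_le_exp (lm (n + 1))]
    gcongr
  have e2 : L (n + 1) * C (n + 1) * (dl η (n + 1) / 10) ^ 2 / 2 =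
      (L (n + 1) * C (n + 1) * dl η (n + 1) ^ 2) / 200 := by ring
  rw [e2]
  linarith

end rate

theorem t_LOW : S_LOW := by
  intro η lm L C ℓ B T x R V H hF hN n a b ha hab hb hH hlen hlow hTa hTb
  have hIcc : ∀ s ∈ Icc a b, s ∈ Ico 0 T := fun s hs => ⟨ha.trans hs.1, hs.2.trans_lt hb⟩
  have hbm : b ∈ Ico 0 T := hIcc b ⟨hab, le_rfl⟩
  have hd0 := H.nm.d0 (n + 1)
  have hd1 := H.nm.d1 (n + 1)
  have hlm1 := H.nm.lm1 (n + 1)
  have hdlm := H.nm.lmd (n + 1)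
  have hL0 := L_pos H n
  have h30 : (10 : ℝ) ^ 30 > 1000 := by norm_num
  have hlp : 0 < lm (n + 1) := by linarith
  -- the times
  have hThc : ContinuousOn (Th L R n) (Icc a b) := (Pr_cont (cLR H n (n + 1))).mono hIcc
  obtain ⟨c, hc, hTc⟩ : ∃ c ∈ Icc a b, Th L R n c = dl η (n + 1) / 2 :=
    intermediate_value_Icc hab hThc ⟨by linarith, hTb⟩
  obtain ⟨a₁, ha₁, hTa₁⟩ : ∃ a₁ ∈ Icc a c, Th L R n a₁ = dl η (n + 1) / 4 :=
    intermediate_value_Icc hc.1 (hThc.mono fun s hs => ⟨hs.1, hs.2.trans hc.2⟩)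
      ⟨hTa, by rw [hTc]; linarith⟩
  have ha₁m : a₁ ∈ Icc a b := ⟨ha₁.1, ha₁.2.trans hc.2⟩
  have hcm := hIcc c hc
  have ha₁m' := hIcc a₁ ha₁m
  -- the length
  have hlen1 : dl η (n + 1) / 4 ≤ L n * (c - a₁) := by
    have h1 := Pool.Agent.Y5.le_incr (f := Pr (fun s => L n * R (n + 1) s))
      (f' := fun s => L n * R (n + 1) s) (g := fun _ => L n) continuousOn_const ha₁m' hcm ha₁.2
      ((Pr_cont (cLR H n (n + 1))).mono fun s hs => ⟨ha₁m'.1.trans hs.1, hs.2.trans_lt hcm.2⟩)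
      (fun s hs => Pr_deriv (cLR H n (n + 1)) ⟨ha₁m'.1.trans_lt hs.1, hs.2.trans hcm.2⟩)
      (fun s hs => by
        have := R_le_one H (n + 1) ⟨ha₁m'.1.trans hs.1.le, hs.2.trans hcm.2⟩
        nlinarith)
    have h2 : ∀ t, Pr (fun _ : ℝ => L n) t = L n * t := by
      intro t
      simp [Pr, mul_comm]
    rw [h2, h2] at h1
    have h3 : Pr (fun s => L n * R (n + 1) s) c - Pr (fun s => L n * R (n + 1) s) a₁ =
      Th L R n c - Th L R n a₁ := rfl
    rw [h3, hTc, hTa₁] at h1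
    linarith
  -- the numbers
  have hExb := Ex_le H hbm hH
  have hls := H.nm.lmsum n
  have hTb2 := hH.old n le_rfl
  have hEx : Ex L R (n + 1) b ≤ 3 * (dl η (n + 1) * lm (n + 1)) / 10 ^ 7 := by
    linarith
  have hb3 : b ≤ 3 * lm 0 := by
    have h1 := hH.time
    have h2 := H.nm.L1 0
    have h3 : 0 ≤ b := hbm.1
    nlinarith
  have he0 : ∀ t ∈ Icc a b, e0 lm * (b - t) ≤ (dl η (n + 1) * lm (n + 1)) / 10 ^ 6 := by
    intro t ht
    have h1 := H.nm.e1
    have h2 := e0_pos lm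
    have h3 := H.nm.L1 0
    have h4 : e0 lm * lm 0 ≤ 1 / 10 ^ 30 := by nlinarith
    have h5 : b - t ≤ 3 * lm 0 := by linarith [ht.1]
    have h6 : e0 lm * (b - t) ≤ 3 * (e0 lm * lm 0) := by nlinarith
    have h7 : (3 : ℝ) * (1 / 10 ^ 30) ≤ 10 ^ 30 / 10 ^ 6 := by norm_num
    have h8 : (10 : ℝ) ^ 30 / 10 ^ 6 ≤ (dl η (n + 1) * lm (n + 1)) / 10 ^ 6 := by
      gcongr
    linarith
  have hℓ : ∀ t ∈ Icc a b, ℓ (n + 2) * (b - t) ≤ (dl η (n + 1) * lm (n + 1)) / 10 ^ 6 := by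
    intro t ht
    have h1 := H.sq.ℓ_succ (n + 1)
    have h2 := H.nm.ds (n + 1)
    have h3 : n + 1 + 1 = n + 2 := rfl
    rw [h3] at h1 h2
    rw [h2, ← H.sq.lm_succ n] at h1
    have h4 : 0 ≤ b - t := by linarith [ht.2]
    have h5 : (b - t) * (dl η (n + 1) * L n) ≤ 1 := by
      have h6 : 0 < dl η (n + 1) * L n := mul_pos hd0 hL0
      rw [le_div_iff₀ h6] at hlen
      have h7 : (b - t) * (dl η (n + 1) * L n) ≤ (b - a) * (dl η (n + 1) * L n) := by
        have : b - t ≤ b - a := by linarith [ht.1]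
        gcongr
      linarith
    have h6 := mul_le_mul_of_nonneg_right h1 h4
    have h7 : (dl η (n + 1) / 4) ^ 4 * (lm (n + 1) * L n) * (b - t) =
        (dl η (n + 1) ^ 3 / 256 * lm (n + 1)) * ((b - t) * (dl η (n + 1) * L n)) := by ring
    rw [h7] at h6
    have h8 : 0 ≤ dl η (n + 1) ^ 3 / 256 * lm (n + 1) := by positivity
    have h9 : (dl η (n + 1) ^ 3 / 256 * lm (n + 1)) * ((b - t) * (dl η (n + 1) * L n)) ≤
        dl η (n + 1) ^ 3 / 256 * lm (n + 1) := mul_le_of_le_one_right h8 h5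
    have h10 : dl η (n + 1) ^ 3 / 256 * lm (n + 1) ≤ dl η (n + 1) * lm (n + 1) := by
      have h11 : dl η (n + 1) ^ 3 / 256 ≤ dl η (n + 1) := by
        have : dl η (n + 1) ^ 3 ≤ dl η (n + 1) ^ 1 :=
          pow_le_pow_of_le_one hd0.le (by linarith) (by norm_num)
        linarith
      gcongr
    rw [le_div_iff₀ (by norm_num)]
    linarith
  -- the exponents
  set A : ℝ → ℝ := Pr (rt L ℓ lm x n) with hA
  have hAlo : ∀ t ∈ Icc a₁ c, lm (n + 1) * (Th L R n b - 53 / 100 * dl η (n + 1)) ≤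
      A b - A t := by
    intro t ht
    have htm : t ∈ Icc a b := ⟨ha₁m.1.trans ht.1, ht.2.trans hc.2⟩
    have h1 := expo_lo H n (t := t) (b := b) (κ := dl η (n + 1) / 100) (hIcc t htm).1 htm.2 hb
      (fun s hs => (hlow s ⟨htm.1.trans hs.1, hs.2⟩).2)
    have h2 : Th L R n t ≤ dl η (n + 1) / 2 := by
      rw [← hTc]
      exact Th_mono H n (hIcc t htm) hcm ht.2
    have h3 := Ex_nonneg H (n + 1) (hIcc t htm)
    have h4 := he0 t htm
    have h5 := hℓ t htm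
    have h6 : (1 - dl η (n + 1) / 100) * (lm (n + 1) * (Th L R n b - dl η (n + 1) / 2)) ≤
        (1 - dl η (n + 1) / 100) * (lm (n + 1) * (Th L R n b - Th L R n t)) := by
      have : 0 ≤ 1 - dl η (n + 1) / 100 := by linarith
      gcongr
    have h7 : (1 - dl η (n + 1) / 100) * (lm (n + 1) * (Th L R n b - dl η (n + 1) / 2)) =
        lm (n + 1) * (Th L R n b - dl η (n + 1) / 2) -
          (dl η (n + 1) * lm (n + 1)) / 100 * (Th L R n b - dl η (n + 1) / 2) := by ring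
    have h8 : (dl η (n + 1) * lm (n + 1)) / 100 * (Th L R n b - dl η (n + 1) / 2) ≤
        (dl η (n + 1) * lm (n + 1)) / 100 * 2 := by
      have : 0 ≤ dl η (n + 1) * lm (n + 1) := by positivity
      gcongr
      linarith
    have h9 : 0 ≤ dl η (n + 1) * lm (n + 1) := by positivity
    have h10 : (ℓ (n + 2) + e0 lm) * (b - t) = ℓ (n + 2) * (b - t) + e0 lm * (b - t) := by ring
    rw [h10] at h1
    have h11 : lm (n + 1) * (Th L R n b - 53 / 100 * dl η (n + 1)) =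
        lm (n + 1) * (Th L R n b - dl η (n + 1) / 2) -
          3 / 100 * (dl η (n + 1) * lm (n + 1)) := by ring
    rw [h11]
    linarith
  have hAhi : A b - A a₁ ≤ 3 * lm (n + 1) := by
    have h1 := expo_hi H n (t := a₁) (b := b) ha₁m'.1 ha₁m.2 hb
    have h3 := Ex_nonneg H (n + 1) ha₁m'
    have h4 := Th_nonneg H n ha₁m'
    have h5 : lm (n + 1) * (Th L R n b - Th L R n a₁) ≤ lm (n + 1) * 2 := by
      gcongr
      linarith
    have h6 : dl η (n + 1) * lm (n + 1) ≤ 1 / 100 * lm (n + 1) := by gcongr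
    linarith
  -- the differential inequality
  have hder : ∀ t ∈ Ioo a b, HasDerivAt (x (n + 2)) (deriv (x (n + 2)) t) t ∧
      L (n + 1) * C (n + 1) * (dl η (n + 1) / 10) ^ 2 / 2 ≤
        deriv (x (n + 2)) t - rt L ℓ lm x n t * x (n + 2) t := by
    intro t ht
    have htm : t ∈ Icc a b := ⟨ht.1.le, ht.2.le⟩
    obtain ⟨h1, h2⟩ := der_lo H hF hN n ⟨ha.trans_lt ht.1, ht.2.trans hb⟩
      (His_mono H (hIcc t htm) hbm ht.2.le hH) (hlow t htm).1
    refine ⟨h1, ?_⟩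
    have h3 := tiny_le H n
    linarith
  have hK0 : 0 ≤ L (n + 1) * C (n + 1) * (dl η (n + 1) / 10) ^ 2 / 2 := by
    have h1 := L_pos H (n + 1)
    have h2 := H.nm.C0 (n + 1)
    positivity
  set K : ℝ := L (n + 1) * C (n + 1) * (dl η (n + 1) / 10) ^ 2 / 2 with hK
  have hWd : ∀ t ∈ Ioo a b, HasDerivAt (fun s => x (n + 2) s * Real.exp (A b - A s))
      ((deriv (x (n + 2)) t - rt L ℓ lm x n t * x (n + 2) t) * Real.exp (A b - A t)) t := by
    intro t ht
    have h1 := (hder t ht).1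
    have h2 : HasDerivAt A (rt L ℓ lm x n t) t :=
      Pr_deriv (rt_cont H n) ⟨ha.trans_lt ht.1, ht.2.trans hb⟩
    have h3 := h1.mul ((h2.const_sub (A b)).exp)
    have h4 : (deriv (x (n + 2)) t - rt L ℓ lm x n t * x (n + 2) t) * Real.exp (A b - A t) =
        deriv (x (n + 2)) t * Real.exp (A b - A t) +
          x (n + 2) t * (Real.exp (A b - A t) * -rt L ℓ lm x n t) := by ring
    rw [h4]
    exact h3
  have hWc : ContinuousOn (fun s => x (n + 2) s * Real.exp (A b - A s)) (Icc a b) := by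
    refine ((H.cx (n + 2)).mono hIcc).mul ?_
    exact (continuousOn_const.sub ((Pr_cont (rt_cont H n)).mono hIcc)).rexp
  have s1 := mono_of (f := fun s => x (n + 2) s * Real.exp (A b - A s)) hc.2
    (hWc.mono fun s hs => ⟨hc.1.trans hs.1, hs.2⟩)
    (fun t ht => hWd t ⟨hc.1.trans_lt ht.1, ht.2⟩)
    (fun t ht => mul_nonneg (hK0.trans (hder t ⟨hc.1.trans_lt ht.1, ht.2⟩).2)
      (Real.exp_pos _).le)
  set E : ℝ := Real.exp (lm (n + 1) * (Th L R n b - 53 / 100 * dl η (n + 1))) with hE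
  have s2 := mono_of (f := fun s => x (n + 2) s * Real.exp (A b - A s) - K * E * s)
    (f' := fun t => (deriv (x (n + 2)) t - rt L ℓ lm x n t * x (n + 2) t) *
      Real.exp (A b - A t) - K * E * 1) ha₁.2
    ((hWc.mono fun s hs => ⟨ha₁m.1.trans hs.1, hs.2.trans hc.2⟩).sub
      (continuousOn_const.mul continuousOn_id))
    (fun t ht => (hWd t ⟨ha₁m.1.trans_lt ht.1, ht.2.trans_le hc.2⟩).sub
      ((hasDerivAt_id t).const_mul _))
    (fun t ht => by
      have h1 := (hder t ⟨ha₁m.1.trans_lt ht.1, ht.2.trans_le hc.2⟩).2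
      have h2 : E ≤ Real.exp (A b - A t) :=
        Real.exp_le_exp.2 (hAlo t ⟨ht.1.le, ht.2.le⟩)
      have h3 : K * E ≤ (deriv (x (n + 2)) t - rt L ℓ lm x n t * x (n + 2) t) *
          Real.exp (A b - A t) := by
        have : 0 ≤ E := (Real.exp_pos _).le
        exact mul_le_mul h1 h2 this (hK0.trans h1)
      linarith)
  have s1' : x (n + 2) c * Real.exp (A b - A c) ≤ x (n + 2) b := by
    have h1 : x (n + 2) b * Real.exp (A b - A b) = x (n + 2) b := by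
      rw [sub_self, Real.exp_zero, mul_one]
    rw [← h1]
    exact s1
  have s2' : x (n + 2) a₁ * Real.exp (A b - A a₁) + K * E * (c - a₁) ≤
      x (n + 2) c * Real.exp (A b - A c) := by
    have h1 : x (n + 2) a₁ * Real.exp (A b - A a₁) - K * E * a₁ ≤
      x (n + 2) c * Real.exp (A b - A c) - K * E * c := s2
    linarith
  -- the value at `a₁`
  have hv0 : -Real.exp (3 * lm (n + 1) - lm (n + 2) / 2) ≤
      x (n + 2) a₁ * Real.exp (A b - A a₁) := by
    have h1 := hN n a₁ ha₁m' (His_mono H ha₁m' hbm ha₁m.2 hH)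
    have h2 : Real.exp (A b - A a₁) ≤ Real.exp (3 * lm (n + 1)) := Real.exp_le_exp.2 hAhi
    have h3 := Real.exp_pos (A b - A a₁)
    have h4 := Real.exp_pos (-(lm (n + 2) / 2))
    have h5 : Real.exp (3 * lm (n + 1) - lm (n + 2) / 2) = Real.exp (-(lm (n + 2) / 2)) *
        Real.exp (3 * lm (n + 1)) := by
      rw [← Real.exp_add]
      congr 1
      ring
    rw [h5]
    nlinarith
  -- the main term
  have hmain : 2 * Real.exp (lm (n + 1) * (Th L R n b - Real.pi / 2 -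
      3 / 4 * dl η (n + 1))) ≤ K * E * (c - a₁) := by
    have h1 := H.sq.C_lo (n + 1)
    have h2 := H.sq.lm_big (n + 1)
    have h3 : K * (c - a₁) ≥ 2 * C (n + 1) := by
      have h4 : K * (c - a₁) = lm (n + 1) * C (n + 1) * (dl η (n + 1)) ^ 2 / 200 *
          (L n * (c - a₁)) := by
        rw [hK, ← H.sq.lm_succ n]
        ring
      have h5 := H.nm.C0 (n + 1)
      rw [h4]
      have h6 : lm (n + 1) * C (n + 1) * (dl η (n + 1)) ^ 2 / 200 * (dl η (n + 1) / 4) ≤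
          lm (n + 1) * C (n + 1) * (dl η (n + 1)) ^ 2 / 200 * (L n * (c - a₁)) := by
        gcongr
      have h7 : lm (n + 1) * C (n + 1) * (dl η (n + 1)) ^ 2 / 200 * (dl η (n + 1) / 4) =
          (dl η (n + 1) ^ 3 * lm (n + 1)) / 800 * C (n + 1) := by ring
      have h8 : dl η (n + 1) ^ 4 * lm (n + 1) ≤ dl η (n + 1) ^ 3 * lm (n + 1) := by
        have : dl η (n + 1) ^ 4 ≤ dl η (n + 1) ^ 3 :=
          pow_le_pow_of_le_one hd0.le (by linarith) (by norm_num)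
        gcongr
      have h9 : 2 ≤ (dl η (n + 1) ^ 3 * lm (n + 1)) / 800 := by
        rw [le_div_iff₀ (by norm_num)]
        have : (2 : ℝ) * 800 ≤ 10 ^ 30 := by norm_num
        linarith
      have h10 : 2 * C (n + 1) ≤ (dl η (n + 1) ^ 3 * lm (n + 1)) / 800 * C (n + 1) := by
        gcongr
      linarith
    have h4 : 2 * Real.exp (-((Real.pi / 2 + dl η (n + 1) / 1000) * lm (n + 1))) * E ≤
        K * E * (c - a₁) := by
      have h5 : 0 ≤ E := (Real.exp_pos _).le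
      have h6 : K * E * (c - a₁) = (K * (c - a₁)) * E := by ring
      rw [h6]
      have h7 : 2 * Real.exp (-((Real.pi / 2 + dl η (n + 1) / 1000) * lm (n + 1))) ≤
          K * (c - a₁) := by linarith
      gcongr
    refine le_trans ?_ h4
    rw [mul_assoc, hE, ← Real.exp_add]
    have h5 : lm (n + 1) * (Th L R n b - Real.pi / 2 - 3 / 4 * dl η (n + 1)) ≤
        -((Real.pi / 2 + dl η (n + 1) / 1000) * lm (n + 1)) +
          lm (n + 1) * (Th L R n b - 53 / 100 * dl η (n + 1)) := by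
      have h6 : 0 ≤ dl η (n + 1) * lm (n + 1) := by positivity
      linarith
    have := Real.exp_le_exp.2 h5
    linarith
  have htiny : Real.exp (3 * lm (n + 1) - lm (n + 2) / 2) ≤
      Real.exp (lm (n + 1) * (Th L R n b - Real.pi / 2 - 3 / 4 * dl η (n + 1))) := by
    rw [Real.exp_le_exp]
    have h1 := lm_next H n
    have h2 := Th_nonneg H n hbm
    have h3 := Real.pi_lt_d2
    have h4 : -2 ≤ Th L R n b - Real.pi / 2 - 3 / 4 * dl η (n + 1) := by linarith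
    have h5 : lm (n + 1) * (-2) ≤
        lm (n + 1) * (Th L R n b - Real.pi / 2 - 3 / 4 * dl η (n + 1)) := by gcongr
    linarith
  linarith

end Pool.Agent.Y574.EJ
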